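import Mathlib

set_option autoImplicit false
open Set Cardinal
set_option linter.unusedSectionVars false

namespace Pool.Agent.Rb

variable {Ω : Type} [LinearOrder Ω] [WellFoundedLT Ω]

/-- pattern set -/
def pat (r : Ω → ℕ → Bool) (n : ℕ) (T : Finset ℕ) : Set Ω := {α | ∀ i < n, (r α i = true ↔ i ∈ T)}

def ptn (x : ℕ → Bool) (n : ℕ) : Finset ℕ := (Finset.range n).filter (fun i => x i = true)

lemma mem_pat_ptn (r : Ω → ℕ → Bool) (α : Ω) (n : ℕ) : α ∈ pat r n (ptn (r α) n) := by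
  intro i hi
  simp [ptn, hi]

/-- `δ` is closed for the family `𝒲` -/
def Cl (𝒲 : Set (Set Ω)) : Set Ω :=
  {δ | ∀ U ∈ 𝒲, ¬ U.Countable → ∀ F : Finset Ω, (∀ x ∈ F, x < δ) → ∃ α ∈ U, α < δ ∧ ∀ x ∈ F, x < α}

def Pos (S : Set Ω) : Prop := ∀ 𝒲 : Set (Set Ω), 𝒲.Countable → ∃ δ ∈ S, δ ∈ Cl 𝒲

lemma Cl_mono {𝒲 𝒲' : Set (Set Ω)} (h : 𝒲 ⊆ 𝒲') : Cl 𝒲' ⊆ Cl 𝒲 := fun _ hδ U hU => hδ U (h hU)

lemma Pos.mono {S S' : Set Ω} (h : S ⊆ S') (hS : Pos S) : Pos S' := fun 𝒲 h𝒲 => by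
  obtain ⟨δ, h1, h2⟩ := hS 𝒲 h𝒲
  exact ⟨δ, h h1, h2⟩

lemma Pos.exists_of_iUnion {S : ℕ → Set Ω} (h : Pos (⋃ n, S n)) : ∃ n, Pos (S n) := by
  by_contra hcon
  push Not at hcon
  unfold Pos at hcon
  push Not at hcon
  choose 𝒲 h𝒲 hn using hcon
  obtain ⟨δ, h1, h2⟩ := h (⋃ n, 𝒲 n) (countable_iUnion h𝒲)
  obtain ⟨n, hn'⟩ := mem_iUnion.1 h1
  exact hn n δ hn' (Cl_mono (subset_iUnion _ n) h2)

variable (hc : ∀ β : Ω, (Iic β).Countable) [Uncountable Ω]

include hc in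
lemma unbdd {U : Set Ω} (hU : ¬ U.Countable) (γ : Ω) : ∃ α ∈ U, γ < α := by
  by_contra h
  push Not at h
  exact hU ((hc γ).mono fun x hx => h x hx)

include hc in
lemma exists_ub {A : Set Ω} (hA : A.Countable) : ∃ γ, ∀ a ∈ A, a < γ := by
  by_contra h
  push Not at h
  have : (univ : Set Ω) ⊆ ⋃ a ∈ A, Iic a := by
    intro γ _
    obtain ⟨a, ha, h2⟩ := h γ
    simp only [mem_iUnion, mem_Iic]
    exact ⟨a, ha, h2⟩
  exact not_countable_univ ((hA.biUnion fun a _ => hc a).mono this)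

include hc in
lemma exists_Cl (𝒲 : Set (Set Ω)) (h𝒲 : 𝒲.Countable) (γ₀ : Ω) : ∃ δ, γ₀ < δ ∧ δ ∈ Cl 𝒲 := by
  classical
  have hstep : ∀ γ : Ω, ∃ γ' : Ω, γ < γ' ∧ ∀ U ∈ 𝒲, ¬ U.Countable → ∃ α ∈ U, γ < α ∧ α < γ' := by
    intro γ
    have hw : ∀ U : Set Ω, ∃ α : Ω, ¬ U.Countable → α ∈ U ∧ γ < α := by
      intro U
      by_cases hU : U.Countable
      · exact ⟨γ, fun h => absurd hU h⟩
      · obtain ⟨α, h1, h2⟩ := unbdd hc hU γ
        exact ⟨α, fun _ => ⟨h1, h2⟩⟩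
    choose w hw using hw
    obtain ⟨γ', hγ'⟩ := exists_ub hc (A := insert γ (w '' 𝒲)) ((h𝒲.image w).insert γ)
    refine ⟨γ', hγ' γ (mem_insert _ _), fun U hU hUc => ⟨w U, (hw U hUc).1, (hw U hUc).2, hγ' _ (mem_insert_of_mem _ (mem_image_of_mem w hU))⟩⟩
  choose g hg1 hg2 using hstep
  set s : ℕ → Ω := fun n => g^[n] γ₀ with hs
  have hs_succ : ∀ n, s (n + 1) = g (s n) := fun n => Function.iterate_succ_apply' g n γ₀
  have hmono : StrictMono s := strictMono_nat_of_lt_succ fun n => by rw [hs_succ]; exact hg1 _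
  obtain ⟨γ', hγ'⟩ := exists_ub hc (countable_range s)
  have hne : {δ : Ω | ∀ n, s n < δ}.Nonempty := ⟨γ', fun n => hγ' _ (mem_range_self n)⟩
  obtain ⟨δ, hδ, hmin⟩ := WellFounded.has_min (wellFounded_lt (α := Ω)) _ hne
  refine ⟨δ, hδ 0, ?_⟩
  intro U hU hUc F hF
  have hx : ∀ x ∈ F, ∃ n, x ≤ s n := by
    intro x hx
    by_contra hcon
    push Not at hcon
    exact hmin x hcon (hF x hx)
  have hN : ∃ N, ∀ x ∈ F, x ≤ s N := by
    choose! k hk using hx
    refine ⟨F.sup k, fun x hx => (hk x hx).trans (hmono.monotone (Finset.le_sup hx))⟩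
  obtain ⟨N, hN⟩ := hN
  obtain ⟨α, h1, h2, h3⟩ := hg2 (s N) U hU hUc
  refine ⟨α, h1, h3.trans ?_, fun x hx => lt_of_le_of_lt (hN x hx) h2⟩
  rw [← hs_succ]
  exact hδ _

include hc in
lemma pos_Ioi (γ : Ω) : Pos (Ioi γ) := fun 𝒲 h𝒲 => by
  obtain ⟨δ, h1, h2⟩ := exists_Cl hc 𝒲 h𝒲 γ
  exact ⟨δ, h1, h2⟩

variable (e : Ω → Ω → ℕ) (he : ∀ β, InjOn (e β) (Iio β))

include hc he in
/-- Ulam: countably many disjoint positive sets -/
lemma exists_phi : ∃ φ : Ω → ℕ, ∀ m, Pos {δ | φ δ = m} := by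
  classical
  have h1 : ∀ ξ : Ω, ∃ n, Pos {δ | ξ < δ ∧ e δ ξ = n} := by
    intro ξ
    apply Pos.exists_of_iUnion
    refine (pos_Ioi hc ξ).mono ?_
    intro δ hδ
    simp only [mem_iUnion]
    exact ⟨e δ ξ, hδ, rfl⟩
  choose n hn using h1
  obtain ⟨k, hk⟩ : ∃ k, ¬ {ξ | n ξ = k}.Countable := by
    by_contra hcon
    push Not at hcon
    apply not_countable_univ (α := Ω)
    refine (countable_iUnion hcon).mono ?_
    intro ξ _
    simp
  have hinf : {ξ | n ξ = k}.Infinite := fun h => hk h.countable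
  set j := hinf.natEmbedding with hj
  have hjn : ∀ i, n (j i : Ω) = k := fun i => (j i).2
  have huniq : ∀ δ : Ω, ∀ i i', ((j i : Ω) < δ ∧ e δ (j i) = k) → ((j i' : Ω) < δ ∧ e δ (j i') = k) → i = i' := by
    intro δ i i' h h'
    have := he δ h.1 h'.1 (h.2.trans h'.2.symm)
    exact j.injective (Subtype.ext this)
  refine ⟨fun δ => if h : ∃ i, ((j i : Ω) < δ ∧ e δ (j i) = k) then h.choose else 0, fun m => ?_⟩
  have := hn (j m)
  rw [hjn m] at this
  refine this.mono ?_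
  intro δ hδ
  have hex : ∃ i, ((j i : Ω) < δ ∧ e δ (j i) = k) := ⟨m, hδ⟩
  change (if h : ∃ i, ((j i : Ω) < δ ∧ e δ (j i) = k) then h.choose else 0) = m
  rw [dif_pos hex]
  exact huniq δ _ _ hex.choose_spec hδ

variable (r : Ω → ℕ → Bool) (hr : Function.Injective r)

noncomputable def D (α β : Ω) : ℕ := PiNat.firstDiff (E := fun _ => Bool) (r α) (r β)

include hr in
lemma D_spec {α β : Ω} (h : α ≠ β) : r α (D r α β) ≠ r β (D r α β) :=
  PiNat.apply_firstDiff_ne (E := fun _ => Bool) (fun h' => h (hr h'))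

lemma D_lt {α β : Ω} {i : ℕ} (h : i < D r α β) : r α i = r β i :=
  PiNat.apply_eq_of_lt_firstDiff (E := fun _ => Bool) h

include hr in
lemma D_ge {α β : Ω} (h : α ≠ β) {n : ℕ} (hn : ∀ i < n, r α i = r β i) : n ≤ D r α β := by
  by_contra hcon
  push Not at hcon
  exact D_spec r hr h (hn _ hcon)

def br (α β δ : Ω) : Prop := α ≤ δ ∧ δ < β ∧ e β δ ≤ D r α β ∧ ∀ x, α ≤ x → x < δ → D r α β < e β x

omit [WellFoundedLT Ω] [Uncountable Ω] in
lemma br_unique {α β δ δ' : Ω} (h : br e r α β δ) (h' : br e r α β δ') : δ = δ' := by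
  rcases lt_trichotomy δ δ' with hl | hl | hl
  · exact absurd (h'.2.2.2 δ h.1 hl) (not_lt.2 h.2.2.1)
  · exact hl
  · exact absurd (h.2.2.2 δ' h'.1 hl) (not_lt.2 h'.2.2.1)

include hc he hr in
theorem bracket {W : Set Ω} (hW : ¬ W.Countable) : ∃ 𝒲 : Set (Set Ω), 𝒲.Countable ∧ ∀ δ ∈ Cl 𝒲,
    ∃ α ∈ W, ∃ β ∈ W, α < β ∧ br e r α β δ := by
  classical
  refine ⟨range (fun p : ℕ × Finset ℕ => W ∩ pat r p.1 p.2), countable_range _, ?_⟩
  intro δ hδ
  -- exceptional set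
  have hE : {β ∈ W | ∃ n, (W ∩ pat r n (ptn (r β) n)).Countable}.Countable := by
    have : {β ∈ W | ∃ n, (W ∩ pat r n (ptn (r β) n)).Countable} ⊆
        ⋃ p ∈ {p : ℕ × Finset ℕ | (W ∩ pat r p.1 p.2).Countable}, (W ∩ pat r p.1 p.2) := by
      rintro β ⟨hβ, n, hn⟩
      simp only [mem_iUnion]
      exact ⟨(n, ptn (r β) n), hn, hβ, mem_pat_ptn r β n⟩
    refine Countable.mono this ?_
    exact (to_countable _).biUnion fun p hp => hp
  have hW' : ¬ (W \ {β ∈ W | ∃ n, (W ∩ pat r n (ptn (r β) n)).Countable}).Countable := by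
    intro h
    apply hW
    refine (h.union hE).mono ?_
    intro x hx
    by_cases hx' : x ∈ {β ∈ W | ∃ n, (W ∩ pat r n (ptn (r β) n)).Countable}
    · exact Or.inr hx'
    · exact Or.inl ⟨hx, hx'⟩
  obtain ⟨β, hβ, hδβ⟩ := unbdd hc hW' δ
  have hβW := hβ.1
  have hβc : ∀ n, ¬ (W ∩ pat r n (ptn (r β) n)).Countable := by
    intro n hn
    exact hβ.2 ⟨hβW, n, hn⟩
  set k := e β δ with hk
  obtain ⟨m, hkm, hm⟩ : ∃ m, k ≤ m ∧ ¬ {α ∈ W | α ≠ β ∧ D r α β = m}.Countable := by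
    by_contra hcon
    push Not at hcon
    apply hβc k
    have : (W ∩ pat r k (ptn (r β) k)) ⊆ {β} ∪ ⋃ m ∈ {m | k ≤ m}, {α ∈ W | α ≠ β ∧ D r α β = m} := by
      rintro α ⟨hα, hα2⟩
      by_cases h : α = β
      · exact Or.inl h
      · right
        simp only [mem_iUnion]
        refine ⟨D r α β, ?_, hα, h, rfl⟩
        apply D_ge r hr h
        intro i hi
        have := hα2 i hi
        simp only [ptn, Finset.mem_filter, Finset.mem_range] at this
        rcases h1 : r α i <;> rcases h2 : r β i <;> simp_all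
    refine ((countable_singleton β).union ?_).mono this
    exact (to_countable _).biUnion fun m hm => hcon m hm
  -- the set with first difference `m` is a pattern set
  set T : Finset ℕ := (Finset.range (m + 1)).filter (fun i => (i < m ∧ r β i = true) ∨ (i = m ∧ r β m = false)) with hT
  have hpat : ∀ α, α ∈ pat r (m + 1) T ↔ (α ≠ β ∧ D r α β = m) := by
    intro α
    constructor
    · intro h
      have h1 : ∀ i < m, r α i = r β i := by
        intro i hi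
        have := h i (by omega)
        simp only [hT, Finset.mem_filter, Finset.mem_range] at this
        have hne : i ≠ m := hi.ne
        rcases ha : r α i <;> rcases hb : r β i <;> simp_all
        omega
      have h2 : r α m ≠ r β m := by
        have := h m (by omega)
        simp only [hT, Finset.mem_filter, Finset.mem_range] at this
        rcases ha : r α m <;> rcases hb : r β m <;> simp_all
      have hne : α ≠ β := fun h => h2 (by rw [h])
      refine ⟨hne, le_antisymm ?_ (D_ge r hr hne h1)⟩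
      by_contra hcon
      push Not at hcon
      exact h2 (D_lt r hcon)
    · rintro ⟨hne, hD⟩ i hi
      simp only [hT, Finset.mem_filter, Finset.mem_range]
      rcases (Nat.lt_succ_iff_lt_or_eq.1 hi) with h | h
      · have := D_lt r (α := α) (β := β) (i := i) (by omega)
        rw [this]
        constructor
        · intro h'; exact ⟨hi, Or.inl ⟨h, h'⟩⟩
        · rintro ⟨_, h' | h'⟩
          · exact h'.2
          · omega
      · subst h
        have := D_spec r hr hne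
        rw [hD] at this
        constructor
        · intro h'
          refine ⟨hi, Or.inr ⟨rfl, ?_⟩⟩
          rcases hb : r β i <;> simp_all
        · rintro ⟨_, h' | h'⟩
          · omega
          · rcases ha : r α i <;> simp_all
  have hU : W ∩ pat r (m + 1) T ∈ range (fun p : ℕ × Finset ℕ => W ∩ pat r p.1 p.2) := ⟨(m + 1, T), rfl⟩
  have hUc : ¬ (W ∩ pat r (m + 1) T).Countable := by
    intro h
    apply hm
    refine h.mono ?_
    rintro α ⟨h1, h2⟩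
    exact ⟨h1, (hpat α).2 h2⟩
  have hFfin : {x | x < δ ∧ e β x ≤ m}.Finite := by
    apply Set.Finite.of_finite_image (f := e β)
    · exact (Set.finite_Iic m).subset (by rintro _ ⟨x, hx, rfl⟩; exact hx.2)
    · exact (he β).mono fun x hx => hx.1.trans hδβ
  obtain ⟨α, hα, hαδ, hαF⟩ := hδ _ hU hUc hFfin.toFinset (by intro x hx; exact (hFfin.mem_toFinset.1 hx).1)
  obtain ⟨hne, hD⟩ := (hpat α).1 hα.2
  refine ⟨α, hα.1, β, hβW, hαδ.trans hδβ, hαδ.le, hδβ, by rw [hD]; exact hkm, ?_⟩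
  intro x hαx hxδ
  rw [hD]
  by_contra hcon
  push Not at hcon
  exact absurd (hαF x (hFfin.mem_toFinset.2 ⟨hxδ, hcon⟩)) (not_lt.2 hαx)

include hc he hr in
/-- `ω₁ ↛ [ω₁]²_ω` -/
theorem exists_h : ∃ h : Ω → Ω → ℕ, ∀ W : Set Ω, ¬ W.Countable → ∀ m, ∃ α ∈ W, ∃ β ∈ W, α < β ∧ h α β = m := by
  classical
  obtain ⟨φ, hφ⟩ := exists_phi hc e he
  refine ⟨fun α β => if h : ∃ δ, br e r α β δ then φ h.choose else 0, ?_⟩
  intro W hW m
  obtain ⟨𝒲, h𝒲, hcl⟩ := bracket hc e he r hr hW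
  obtain ⟨δ, hδ, hδ2⟩ := hφ m 𝒲 h𝒲
  obtain ⟨α, hα, β, hβ, hlt, hbr⟩ := hcl δ hδ2
  refine ⟨α, hα, β, hβ, hlt, ?_⟩
  have hex : ∃ δ, br e r α β δ := ⟨δ, hbr⟩
  change (if h : ∃ δ, br e r α β δ then φ h.choose else 0) = m
  rw [dif_pos hex, br_unique e r hex.choose_spec hbr]
  exact hδ

end Pool.Agent.Rb
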