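import Pool.Agent.H0.Rb.Br

set_option autoImplicit false
open Set Cardinal Filter Topology
set_option linter.unusedSectionVars false

namespace Pool.Agent.Rb

variable {Ω : Type} [LinearOrder Ω] [WellFoundedLT Ω] (hc : ∀ β : Ω, (Iic β).Countable) [Uncountable Ω]
  (e : Ω → Ω → ℕ) (he : ∀ β, InjOn (e β) (Iio β))
  (r : Ω → ℕ → Bool) (hr : Function.Injective r)

/-- the colouring -/
noncomputable def col (h : Ω → Ω → ℕ) (o : Ω) (α β : Ω) : Ω :=
  open scoped Classical in
  if H : h α β ≤ D r α β ∧ ∃ ξ, ξ < α ∧ e α ξ = h α β then H.2.choose else o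

include he in
lemma col_eq {h : Ω → Ω → ℕ} {o α β ξ : Ω} (h1 : h α β ≤ D r α β) (h2 : ξ < α) (h3 : e α ξ = h α β) :
    col e r h o α β = ξ := by
  classical
  have H : h α β ≤ D r α β ∧ ∃ ξ, ξ < α ∧ e α ξ = h α β := ⟨h1, ξ, h2, h3⟩
  unfold col
  rw [dif_pos H]
  have hs := H.2.choose_spec
  exact he α hs.1 h2 (hs.2.trans h3.symm)

lemma col_mem {h : Ω → Ω → ℕ} {o α β : Ω} : col e r h o α β = o ∨
    (col e r h o α β < α ∧ e α (col e r h o α β) ≤ D r α β) := by
  classical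
  by_cases H : h α β ≤ D r α β ∧ ∃ ξ, ξ < α ∧ e α ξ = h α β
  · right
    unfold col
    rw [dif_pos H]
    have hs := H.2.choose_spec
    exact ⟨hs.1, hs.2.trans_le H.1⟩
  · left
    unfold col
    rw [dif_neg H]

include hc he hr in
lemma col_adm {h : Ω → Ω → ℕ} (hh : ∀ W : Set Ω, ¬ W.Countable → ∀ m, ∃ α ∈ W, ∃ β ∈ W, α < β ∧ h α β = m)
    (o : Ω) {S : Set Ω} (hS : ¬ S.Countable) (ξ : Ω) : ∃ α ∈ S, ∃ β ∈ S, α < β ∧ col e r h o α β = ξ := by
  classical
  have h1 : ∃ m, ¬ {α ∈ S | ξ < α ∧ e α ξ = m}.Countable := by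
    by_contra hcon
    push Not at hcon
    apply hS
    refine ((hc ξ).union (countable_iUnion hcon)).mono ?_
    intro α hα
    by_cases hα' : α ≤ ξ
    · exact Or.inl hα'
    · right
      simp only [mem_iUnion]
      exact ⟨e α ξ, hα, not_le.1 hα', rfl⟩
  obtain ⟨m, hm⟩ := h1
  have h2 : ∃ T : Finset ℕ, ¬ ({α ∈ S | ξ < α ∧ e α ξ = m} ∩ pat r m T).Countable := by
    by_contra hcon
    push Not at hcon
    apply hm
    refine (countable_iUnion hcon).mono ?_
    intro α hα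
    simp only [mem_iUnion]
    exact ⟨ptn (r α) m, hα, mem_pat_ptn r α m⟩
  obtain ⟨T, hT⟩ := h2
  obtain ⟨α, hα, β, hβ, hlt, hhm⟩ := hh _ hT m
  refine ⟨α, hα.1.1, β, hβ.1.1, hlt, ?_⟩
  apply col_eq e he r _ hα.1.2.1 (by rw [hhm]; exact hα.1.2.2)
  rw [hhm]
  apply D_ge r hr hlt.ne
  intro i hi
  have ha := hα.2 i hi
  have hb := hβ.2 i hi
  rcases h1 : r α i <;> rcases h2 : r β i <;> simp_all

include he hr in
lemma no_rainbow {h : Ω → Ω → ℕ} (o : Ω) {T : Set Ω} (hT : T.Infinite) :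
    ∃ w ∈ T, ∃ x ∈ T, ∃ y ∈ T, w < x ∧ w < y ∧ x ≠ y ∧ col e r h o w x = col e r h o w y := by
  classical
  -- initial part of type `ω`
  set T' : Set Ω := {w ∈ T | (T ∩ Iio w).Finite} with hT'
  have hT'inf : T'.Infinite := by
    intro hfin
    have hne : (T \ T').Nonempty := (hT.sdiff hfin).nonempty
    obtain ⟨w, hw, hmin⟩ := WellFounded.has_min (wellFounded_lt (α := Ω)) _ hne
    apply hw.2
    refine ⟨hw.1, hfin.subset ?_⟩
    rintro x ⟨hx, hxw⟩
    by_contra hx'
    exact hmin x ⟨hx, hx'⟩ hxw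
  obtain ⟨p, hp⟩ := (hT'inf.image (f := r) hr.injOn).exists_accPt_principal
  -- infinitely many points of T' in each cylinder
  have hcyl : ∀ n : ℕ, {w ∈ T' | ∀ i < n, r w i = p i}.Infinite := by
    intro n
    have hnhds : {q : ℕ → Bool | ∀ i < n, q i = p i} ∈ 𝓝 p := by
      have : {q : ℕ → Bool | ∀ i < n, q i = p i} = ⋂ i ∈ Finset.range n, {q : ℕ → Bool | q i = p i} := by
        ext q; simp
      rw [this]
      refine (Filter.biInter_finset_mem _).2 fun i _ => ?_
      have hcont : Continuous (fun q : ℕ → Bool => q i) := continuous_apply i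
      have : {q : ℕ → Bool | q i = p i} = (fun q : ℕ → Bool => q i) ⁻¹' {p i} := rfl
      rw [this]
      exact hcont.continuousAt.preimage_mem_nhds (by simp)
    have h3 : AccPt p (𝓟 (r '' T' ∩ {q : ℕ → Bool | ∀ i < n, q i = p i})) := by
      rw [accPt_iff_frequently] at hp ⊢
      refine (hp.and_eventually hnhds).mono ?_
      rintro y ⟨⟨h1, h2⟩, h3⟩
      exact ⟨h1, h2, h3⟩
    have h4 := Set.Infinite.of_accPt h3
    intro hfin
    apply h4
    refine (hfin.image r).subset ?_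
    rintro _ ⟨⟨w, hw, rfl⟩, hw2⟩
    exact ⟨w, ⟨hw, hw2⟩, rfl⟩
  -- pick `w`
  obtain ⟨w, hwT, hwp⟩ : ∃ w ∈ T', r w ≠ p := by
    by_contra hcon
    push Not at hcon
    apply hT'inf
    apply Set.Subsingleton.finite
    intro x hx y hy
    exact hr ((hcon x hx).trans (hcon y hy).symm)
  set n := PiNat.firstDiff (E := fun _ => Bool) (r w) p with hn
  have hn1 : r w n ≠ p n := PiNat.apply_firstDiff_ne (E := fun _ => Bool) hwp
  have hn2 : ∀ i < n, r w i = p i := fun i hi => PiNat.apply_eq_of_lt_firstDiff (E := fun _ => Bool) hi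
  have hbig : ({x ∈ T' | ∀ i < n + 1, r x i = p i} \ Iic w).Infinite := by
    intro hfin
    apply hcyl (n + 1)
    have hfin2 : (T ∩ Iic w).Finite := by
      refine (hwT.2.union (finite_singleton w)).subset ?_
      rintro x ⟨hx, hxw⟩
      rcases eq_or_lt_of_le (show x ≤ w from hxw) with h | h
      · exact Or.inr h
      · exact Or.inl ⟨hx, h⟩
    refine (hfin.union hfin2).subset ?_
    intro x hx
    by_cases hxw : x ≤ w
    · exact Or.inr ⟨hx.1.1, hxw⟩
    · exact Or.inl ⟨hx, hxw⟩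
  have hDn : ∀ x ∈ ({x ∈ T' | ∀ i < n + 1, r x i = p i} \ Iic w), D r w x = n := by
    rintro x ⟨⟨hx, hx2⟩, hx3⟩
    have hne : w ≠ x := by
      rintro rfl
      exact hx3 (le_refl w)
    apply le_antisymm
    · by_contra hcon
      push Not at hcon
      apply hn1
      rw [D_lt r hcon, hx2 n (by omega)]
    · apply D_ge r hr hne
      intro i hi
      rw [hn2 i hi, hx2 i (by omega)]
  -- finitely many colours
  have hcolfin : ({o} ∪ {ξ | ξ < w ∧ e w ξ ≤ n}).Finite := by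
    refine (finite_singleton o).union ?_
    apply Set.Finite.of_finite_image (f := e w)
    · exact (Set.finite_Iic n).subset (by rintro _ ⟨x, hx, rfl⟩; exact hx.2)
    · exact (he w).mono fun x hx => hx.1
  have hmaps : MapsTo (fun x => col e r h o w x) ({x ∈ T' | ∀ i < n + 1, r x i = p i} \ Iic w)
      ({o} ∪ {ξ | ξ < w ∧ e w ξ ≤ n}) := by
    intro x hx
    rcases col_mem e r (h := h) (o := o) (α := w) (β := x) with h1 | h1
    · left; exact h1
    · right
      refine ⟨h1.1, ?_⟩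
      have := h1.2
      rw [hDn x hx] at this
      exact this
  obtain ⟨x, hx, y, hy, hxy, hxy2⟩ := hbig.exists_ne_map_eq_of_mapsTo hmaps hcolfin
  exact ⟨w, hwT.1, x, hx.1.1.1, y, hy.1.1.1, not_le.1 hx.2, not_le.1 hy.2, hxy, hxy2⟩

end Pool.Agent.Rb
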